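import Pool.Agent.Helper95.WS.St

/-!
# Project WS, module W11: assembly
-/

set_option autoImplicit false

namespace Pool.Agent.Helper83.WS

open Polynomial Pool.Agent.Helper95.WS
open scoped Classical

noncomputable section

/-- norm of a sum over a multiset -/
theorem norm_msum_le (ρ : ℝ) (s : Multiset ℂ) (h : ∀ α ∈ s, ‖α‖ ≤ ρ) :
    ‖s.sum‖ ≤ (Multiset.card s : ℝ) * ρ := by
  induction s using Multiset.induction_on with
  | empty => simp
  | cons a s ih =>
    rw [Multiset.sum_cons, Multiset.card_cons]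
    have h1 := ih (fun α hα => h α (Multiset.mem_cons_of_mem hα))
    have h2 := h a (Multiset.mem_cons_self a s)
    calc ‖a + s.sum‖ ≤ ‖a‖ + ‖s.sum‖ := norm_add_le _ _
      _ ≤ ρ + (Multiset.card s : ℝ) * ρ := add_le_add h2 h1
      _ = ((Multiset.card s + 1 : ℕ) : ℝ) * ρ := by push_cast; ring

theorem hW11 (hW1 : StW1) (hW5 : StW5) (hW6 : StW6) (hW7 : StW7) (hW8 : StW8) (hW9 : StW9)
    (hW10 : StW10) : StW11 := by
  intro F _ _ f hF hsq hd
  set ψ : MulChar F ℂ := (quadraticChar F).ringHomComp (Int.castRingHom ℂ) with hψ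
  have hψa : ∀ b : F, ψ b = ((quadraticChar F b : ℤ) : ℂ) := by
    intro b
    rw [hψ, MulChar.ringHomComp_apply]
    rfl
  have hψ1 : ψ ≠ 1 := by
    rw [hψ]
    exact (MulChar.ringHomComp_ne_one_iff
      (RingHom.injective_int (Int.castRingHom ℂ))).2 (quadraticChar_ne_one hF)
  have hψ2 : ∀ b : F, b ≠ 0 → ψ b ^ 2 = 1 := by
    intro b hb
    rw [hψa]
    exact_mod_cast quadraticChar_sq_one hb
  obtain ⟨-, -, hA0, -⟩ := hW1 F ψ f
  obtain ⟨hAd, hAe⟩ := hW5 F ψ f hψ1 hsq hd
  obtain ⟨s, hcs, hps, hpr⟩ := hW8 f.natDegree (AA ψ f) (PS ψ f) hd hA0 hAd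
    (fun n => hW6 F ψ f n)
  set q := Fintype.card F with hq
  have hq0 : (0 : ℝ) ≤ q := Nat.cast_nonneg _
  -- power sums
  have hpow : ∀ r, 1 ≤ r → ‖(s.map (fun α => α ^ r)).sum‖ ≤
      (8 * f.natDegree + 12) * (√(q : ℝ)) ^ r := by
    intro r hr
    have : Fact (ringChar F).Prime := ⟨CharP.char_is_prime F (ringChar F)⟩
    have : NeZero r := ⟨by omega⟩
    let : Fintype (FiniteField.Extension F (ringChar F) r) := Fintype.ofFinite _
    have h1 := hW10 F (FiniteField.Extension F (ringChar F) r) f hF hsq hd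
    rw [← hψ, hW7, FiniteField.finrank_extension, hps r hr, norm_neg] at h1
    have h2 : Fintype.card (FiniteField.Extension F (ringChar F) r) = q ^ r := by
      rw [Fintype.card_eq_nat_card, FiniteField.natCard_extension, hq, Fintype.card_eq_nat_card]
    rw [h2] at h1
    push_cast at h1
    have h3 : √((q : ℝ) ^ r) = (√(q : ℝ)) ^ r := by
      rw [Real.sqrt_eq_iff_mul_self_eq (by positivity) (by positivity), ← mul_pow,
        Real.mul_self_sqrt hq0]
    rw [h3] at h1
    exact h1
  have hα : ∀ α ∈ s, ‖α‖ ≤ √(q : ℝ) := hW9 s (8 * f.natDegree + 12) (√(q : ℝ))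
    (Real.sqrt_nonneg _) hpow
  -- the sum over F
  have hS : ∑ x : F, ((quadraticChar F (f.eval x) : ℤ) : ℂ) = - s.sum := by
    have h1 := hW7 F F ψ f
    rw [Module.finrank_self, hps 1 le_rfl] at h1
    simp only [pow_one, Multiset.map_id'] at h1
    rw [← h1]
    unfold SS
    apply Finset.sum_congr rfl
    intro x _
    rw [← hψa, Algebra.norm_self, MonoidHom.id_apply, Polynomial.coe_aeval_eq_eval]
  have hlc : f.leadingCoeff ≠ 0 := leadingCoeff_ne_zero.2 hsq.ne_zero
  by_cases hev : Even f.natDegree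
  · rw [if_pos hev]
    have he2 : ψ f.leadingCoeff ^ 2 = 1 := hψ2 _ hlc
    set e := ψ f.leadingCoeff with he
    have he0 : e ≠ 0 := by
      intro h
      rw [h] at he2
      norm_num at he2
    have hmem : e ∈ s := by
      have h1 := hpr e
      have h2 : ∑ n ∈ Finset.range f.natDegree, AA ψ f n * e ^ (f.natDegree - 1 - n) =
          e ^ (f.natDegree - 1) * ∑ n ∈ Finset.range f.natDegree, e⁻¹ ^ n * AA ψ f n := by
        rw [Finset.mul_sum]
        apply Finset.sum_congr rfl
        intro n hn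
        rw [Finset.mem_range] at hn
        have h3 : e ^ (f.natDegree - 1) = e ^ (f.natDegree - 1 - n) * e ^ n := by
          rw [← pow_add]; congr 1; omega
        rw [h3]
        have h4 : e ^ n * e⁻¹ ^ n = 1 := by rw [← mul_pow, mul_inv_cancel₀ he0, one_pow]
        calc AA ψ f n * e ^ (f.natDegree - 1 - n) =
            e ^ (f.natDegree - 1 - n) * 1 * AA ψ f n := by ring
          _ = e ^ (f.natDegree - 1 - n) * (e ^ n * e⁻¹ ^ n) * AA ψ f n := by rw [h4]
          _ = _ := by ring
      have h5 : ∑ n ∈ Finset.range f.natDegree, e⁻¹ ^ n * AA ψ f n = 0 := by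
        apply hAe
        intro b hb
        obtain ⟨k, hk⟩ := hev
        rw [hk, ← two_mul, pow_mul, hψ2 b hb, one_pow]
      rw [h2, h5, mul_zero, Multiset.prod_eq_zero_iff, Multiset.mem_map] at h1
      obtain ⟨α, hα1, hα2⟩ := h1
      rw [sub_eq_zero] at hα2
      rw [hα2]; exact hα1
    obtain ⟨t, ht⟩ := Multiset.exists_cons_of_mem hmem
    have hct : Multiset.card t = f.natDegree - 2 := by
      rw [ht, Multiset.card_cons] at hcs
      omega
    have hb := norm_msum_le (√(q : ℝ)) t (fun α h => hα α (by rw [ht]; exact Multiset.mem_cons_of_mem h))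
    have hSt : ((∑ x : F, (quadraticChar F (f.eval x) : ℤ) +
        quadraticChar F f.leadingCoeff : ℤ) : ℂ) = - t.sum := by
      push_cast
      rw [hS, ht, Multiset.sum_cons, ← hψa, ← he]
      ring
    have hn : (|((∑ x : F, (quadraticChar F (f.eval x) : ℤ) +
        quadraticChar F f.leadingCoeff : ℤ) : ℝ)| : ℝ) = ‖t.sum‖ := by
      rw [← norm_neg t.sum, ← hSt, Complex.norm_intCast]
    rw [hn]
    refine le_trans hb (le_of_eq ?_)
    rw [hct]
    congr 1
    obtain ⟨k, hk⟩ := hev
    have h6 : (f.natDegree - 1) / 2 = k - 1 := by omega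
    have h7 : f.natDegree - 2 = 2 * (k - 1) := by omega
    rw [h6, h7]
    push_cast
    ring
  · rw [if_neg hev, add_zero]
    have hb := norm_msum_le (√(q : ℝ)) s hα
    have hSt : ((∑ x : F, (quadraticChar F (f.eval x) : ℤ) : ℤ) : ℂ) = - s.sum := by
      push_cast
      exact hS
    have hn : (|((∑ x : F, (quadraticChar F (f.eval x) : ℤ) : ℤ) : ℝ)| : ℝ) = ‖s.sum‖ := by
      rw [← norm_neg s.sum, ← hSt, Complex.norm_intCast]
    rw [hn]
    refine le_trans hb (le_of_eq ?_)
    rw [hcs]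
    congr 1
    rw [Nat.not_even_iff_odd] at hev
    obtain ⟨k, hk⟩ := hev
    have h6 : (f.natDegree - 1) / 2 = k := by omega
    have h7 : f.natDegree - 1 = 2 * k := by omega
    rw [h6, h7]
    push_cast
    ring

end

end Pool.Agent.Helper83.WS
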