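import Pool.Agent.Helper95.WS.St

/-!
# Project WS, module W7: character sums over extensions
-/

set_option autoImplicit false

namespace Pool.Agent.Helper83.WS

open Polynomial Pool.Agent.Helper95.WS
open scoped Classical

noncomputable section

/-- number of elements with a given minimal polynomial -/
theorem card_minpoly (F K : Type) [Field F] [Fintype F] [Field K] [Fintype K] [Algebra F K]
    (P : F[X]) (hm : P.Monic) (hi : Irreducible P) (hd : P.natDegree ∣ Module.finrank F K) :
    ((Finset.univ : Finset K).filter (fun x => minpoly F x = P)).card = P.natDegree := by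
  have h1 : P ∣ X ^ (Nat.card F) ^ (Module.finrank F K) - X :=
    hi.natDegree_dvd_iff_dvd_X_pow_card_pow_sub_X.1 hd
  have hcard : (Nat.card F) ^ (Module.finrank F K) = Fintype.card K := by
    rw [Nat.card_eq_fintype_card, Module.card_eq_pow_finrank (K := F) (V := K)]
  have h2 : P.map (algebraMap F K) ∣ (X ^ Fintype.card K - X : K[X]) := by
    rw [hcard] at h1
    have := Polynomial.map_dvd (algebraMap F K) h1
    simpa using this
  have hne : (X ^ Fintype.card K - X : K[X]) ≠ 0 :=
    FiniteField.X_pow_card_sub_X_ne_zero K Fintype.one_lt_card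
  have hroots := FiniteField.roots_X_pow_card_sub_X K
  have hspl : Splits (X ^ Fintype.card K - X : K[X]) := by
    rw [splits_iff_card_roots, hroots, FiniteField.X_pow_card_sub_X_natDegree_eq K
      Fintype.one_lt_card]
    rfl
  have hs : Splits (P.map (algebraMap F K)) := hspl.of_dvd hne h2
  have hPne : P.map (algebraMap F K) ≠ 0 := (hm.map _).ne_zero
  have hcr : (P.map (algebraMap F K)).roots.card = P.natDegree := by
    rw [splits_iff_card_roots.1 hs, natDegree_map]
  have hle : (P.map (algebraMap F K)).roots ≤ (Finset.univ : Finset K).val := by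
    rw [← hroots]
    exact roots.le_of_dvd hne h2
  have hnd : (P.map (algebraMap F K)).roots.Nodup :=
    Multiset.nodup_of_le hle (Finset.univ : Finset K).nodup
  rw [← hcr, ← Multiset.toFinset_card_of_nodup hnd]
  congr 1
  ext x
  rw [Finset.mem_filter, Multiset.mem_toFinset, mem_roots hPne, IsRoot.def, eval_map_algebraMap]
  constructor
  · rintro ⟨-, h⟩
    rw [← h]
    exact minpoly.aeval F x
  · intro h
    exact ⟨Finset.mem_univ _, (minpoly.eq_of_irreducible_of_monic hi h hm).symm⟩

theorem hW7 (hW1 : StW1) (hW2 : StW2) : StW7 := by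
  intro F K _ _ _ _ _ ψ f
  obtain ⟨hM, -⟩ := hW1 F ψ f
  have hint : ∀ x : K, IsIntegral F x := fun x => Algebra.IsIntegral.isIntegral x
  set r := Module.finrank F K with hr
  have hr0 : 0 < r := Module.finrank_pos
  -- value at x
  have hval : ∀ x : K, ψ (Algebra.norm F (aeval x f)) =
      lam ψ f (minpoly F x) ^ (r / (minpoly F x).natDegree) := by
    intro x
    rw [(hW2 F K x).2 f f.natDegree le_rfl, map_pow]
    rfl
  have hdeg : ∀ x : K, (minpoly F x).natDegree ∣ r := fun x => (hW2 F K x).1
  have hsplit : ∀ x : K, ψ (Algebra.norm F (aeval x f)) =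
      ∑ e ∈ r.divisors, ∑ P ∈ (Mn F e).filter Irreducible,
        if minpoly F x = P then lam ψ f P ^ (r / e) else 0 := by
    intro x
    rw [hval x, Finset.sum_eq_single (minpoly F x).natDegree]
    · rw [Finset.sum_eq_single (minpoly F x)]
      · rw [if_pos rfl]
      · intro P _ hP
        rw [if_neg (fun h => hP h.symm)]
      · intro h
        exfalso
        apply h
        rw [Finset.mem_filter, hM]
        exact ⟨⟨minpoly.monic (hint x), rfl⟩, minpoly.irreducible (hint x)⟩
    · intro e _ he
      apply Finset.sum_eq_zero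
      intro P hP
      rw [Finset.mem_filter, hM] at hP
      rw [if_neg]
      intro h
      apply he
      rw [h]
      exact hP.1.2.symm
    · intro h
      exfalso
      apply h
      rw [Nat.mem_divisors]
      exact ⟨hdeg x, hr0.ne'⟩
  unfold SS PS
  rw [Finset.sum_congr rfl (fun x _ => hsplit x), Finset.sum_comm]
  apply Finset.sum_congr rfl
  intro e he
  rw [Nat.mem_divisors] at he
  rw [Finset.sum_comm]
  apply Finset.sum_congr rfl
  intro P hP
  rw [Finset.mem_filter, hM] at hP
  rw [← Finset.sum_filter, Finset.sum_const, nsmul_eq_mul,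
    card_minpoly F K P hP.1.1 hP.2 (by rw [hP.1.2]; exact he.1), hP.1.2]

end

end Pool.Agent.Helper83.WS
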